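import Pool.Agent.Helper3.FewP.GoalsB

/-!
# FewPoints (MP_d3128a_ag), packet BLK: the assembly of `S_BLK`
-/

set_option autoImplicit false

namespace Pool.Agent.Helper70.FewP

open scoped BigOperators
open Pool.Agent.Helper97.Tate Pool.Agent.Helper3.FewP

theorem t : G_BLK := by
  classical
  intro hGEN hLIF hPSLZ hINJ hENT hSUP hWGT hIXB hBIN hTIP
  intro k _ _ b κ' P M z x y ρ E C hb hκ' hP hρ hgen hC hind a ha
  have hκ : 1 ≤ b * κ' := Nat.one_le_iff_ne_zero.2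
    (Nat.mul_ne_zero (by omega) (by omega))
  have hκZ : (0 : ℤ) < ((b * κ' : ℕ) : ℤ) := by exact_mod_cast hκ
  have hκne : ((b * κ' : ℕ) : ℤ) ≠ 0 := hκZ.ne'
  -- the block of a column
  have hI : ∀ p : C, ∃ i : Fin b, (2 * (P : ℤ) - 1) * p.1.1 + 2 * (P : ℤ) ^ 2 * κ' * ((i : ℕ) : ℤ) ≤
        2 * (P : ℤ) ^ 2 * p.1.2 ∧
      2 * (P : ℤ) ^ 2 * (p.1.2 - κ' * (((i : ℕ) : ℤ) + 1)) < (2 * (P : ℤ) - 1) * p.1.1 := fun p ↦
    hIXB b κ' P p.1.1 p.1.2 hκ' hP (hC p.1 p.2).2.1 (hC p.1 p.2).2.2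
  choose i0 hi0 using hI
  obtain ⟨r, hr⟩ : ∃ r : C → ℤ, ∀ p, r p = p.1.2 % ((b * κ' : ℕ) : ℤ) := ⟨_, fun _ ↦ rfl⟩
  obtain ⟨l0, hl0⟩ : ∃ l0 : C → ℤ, ∀ p, l0 p = p.1.2 / ((b * κ' : ℕ) : ℤ) := ⟨_, fun _ ↦ rfl⟩
  have hn : ∀ p : C, r p + ((b * κ' : ℕ) : ℤ) * l0 p = p.1.2 := by
    intro p
    rw [hr, hl0]
    exact Int.emod_add_mul_ediv _ _
  have hr0 : ∀ p : C, 0 ≤ r p := by
    intro p
    rw [hr]
    exact Int.emod_nonneg _ hκne
  have hr1 : ∀ p : C, r p < ((b * κ' : ℕ) : ℤ) := by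
    intro p
    rw [hr]
    exact Int.emod_lt_of_pos _ hκZ
  obtain ⟨K, hK1, hK2⟩ := hPSLZ ℚ (GG b)
  obtain ⟨f, hf⟩ := hGEN ℚ (PowerSeries (AddMonoidAlgebra ℚ (GG b))) (ℤ × GG b) (Fin b) C
    (Fin b × Mon M) K (ellB b κ' P E) (fun i ↦ 9 * BBi P κ' ((i : ℕ) : ℤ) ^ 2)
    (fun w p ↦ entB b (b * κ') E ρ w.1 p.1.1 (r p) (w.2.1.1 : ℕ) (w.2.1.2 : ℕ))
    (fun w ↦ w.1) i0
    (fun p ↦ (qe (b * κ') (r p) (l0 p), exB b (b * κ') E (i0 p) p.1.1 (r p) (l0 p)))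
    (fun w p ↦ ρ ^ l0 p * ((p.1.1.toNat.choose (w.2.1.2 : ℕ) : ℕ) : ℚ) *
        ((Ring.choose p.1.2 (w.2.1.1 : ℕ) : ℤ) : ℚ))
    (by
      rintro w p ⟨e, g⟩ hne
      by_cases he : e < 0
      · exact absurd (hK2 _ e g he) hne
      obtain ⟨N, rfl⟩ := Int.eq_ofNat_of_zero_le (not_lt.1 he)
      have hne' : (PowerSeries.coeff N (entB b (b * κ') E ρ w.1 p.1.1 (r p) (w.2.1.1 : ℕ)
          (w.2.1.2 : ℕ))).coeff g ≠ 0 := by
        rw [← hK1]
        exact hne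
      obtain ⟨l, hl1, hl2⟩ := (hSUP b (b * κ') E ρ w.1 p.1.1 (r p) (w.2.1.1 : ℕ) (w.2.1.2 : ℕ)
        (hr0 p) (hr1 p)).1 N g hne'
      by_cases hcase : w.1 = i0 p ∧ l = l0 p
      · left
        refine ⟨hcase.1, ?_⟩
        rw [hl2, ← hcase.1, ← hcase.2, hl1]
      · right
        have hw1 := hWGT b κ' P E (i0 p) p.1.1 (r p) (l0 p)
        have hw2 := hWGT b κ' P E w.1 p.1.1 (r p) l
        have hn' := hn p
        have hcast : ((b * κ' : ℕ) : ℤ) = (b : ℤ) * κ' := by push_cast; ring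
        rw [hcast] at hn'
        have htip := hTIP (P : ℤ) (b : ℤ) (κ' : ℤ) p.1.1 p.1.2 (r p + (b : ℤ) * κ' * l)
          ((i0 p : ℕ) : ℤ) ((w.1 : ℕ) : ℤ) (by exact_mod_cast hP) (by exact_mod_cast hb)
          (by exact_mod_cast hκ') (by positivity) (by exact_mod_cast (i0 p).2) (by positivity)
          (by exact_mod_cast w.1.2) (hi0 p).1 (hi0 p).2
          ⟨l - l0 p, by rw [← hn']; ring⟩
        have hne2 : (((w.1 : ℕ) : ℤ), r p + (b : ℤ) * κ' * l) ≠ (((i0 p : ℕ) : ℤ), p.1.2) := by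
          intro h
          apply hcase
          have h1 := congrArg Prod.fst h
          have h2 := congrArg Prod.snd h
          simp only at h1 h2
          refine ⟨Fin.ext (by exact_mod_cast h1), ?_⟩
          rw [← hn'] at h2
          have h3 : (b : ℤ) * κ' * l = (b : ℤ) * κ' * l0 p := by linarith
          rw [← hcast] at h3
          exact mul_left_cancel₀ hκne h3
        have h5 := htip.1
        have h6 := htip.2 hne2
        rw [← hl1, hl2]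
        rw [hw1, hw2, hn']
        linarith)
    (by
      intro w p hwp
      have h0 := (hSUP b (b * κ') E ρ w.1 p.1.1 (r p) (w.2.1.1 : ℕ) (w.2.1.2 : ℕ)
        (hr0 p) (hr1 p)).2.2 (l0 p)
      obtain ⟨N, hN⟩ := Int.eq_ofNat_of_zero_le h0
      have h1 := (hSUP b (b * κ') E ρ w.1 p.1.1 (r p) (w.2.1.1 : ℕ) (w.2.1.2 : ℕ)
        (hr0 p) (hr1 p)).2.1 N (l0 p) hN
      rw [← hwp, hN]
      refine (hK1 _ N _).trans ?_
      rw [h1, hn p])
    (hBIN b κ' P M ρ C i0 l0 hκ' hP hρ (fun p hp ↦ (hC p hp).1) hi0 hind)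
  -- the minor over `KK k`
  have hdet : fB z x y (Matrix.of fun (w p : C) ↦ entB b (b * κ') E ρ (f w).1 p.1.1 (r p)
      ((f w).2.1.1 : ℕ) ((f w).2.1.2 : ℕ)).det ≠ 0 := by
    intro h
    apply hf
    apply hINJ k b z x y hgen
    rw [map_zero]
    exact h
  rw [RingHom.map_det] at hdet
  have hlin := hLIF (KK k) (Fin b × Mon M) C
    (fun p w ↦ (algebraMap (OO k) (KK k) (PowerSeries.C ((y w.1 : kˣ) : k))) ^ p.1.1.toNat *
        ((p.1.1.toNat.choose (w.2.1.2 : ℕ) : ℕ) : KK k) *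
          PowerSeries.coeff (w.2.1.1 : ℕ) (evK (x w.1) (Th (b * κ') (r p)
            ((ρ : k) * (z : k) ^ (((b * κ' : ℕ) : ℤ) * (E - 9 * p.1.1)))))) f
    (by
      intro h
      apply hdet
      rw [← h]
      congr 1
      ext w p
      simp only [RingHom.mapMatrix_apply, Matrix.map_apply, Matrix.of_apply]
      exact hENT k b (b * κ') z x y ρ E (f w).1 p.1.1 (r p) _ _ hρ (hC p.1 p.2).1 (hr0 p) (hr1 p))
  rw [Fintype.linearIndependent_iff] at hlin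
  have hz := hlin (fun p ↦ a p.1) (by
    funext w
    rw [Finset.sum_apply, Pi.zero_apply]
    have h1 := ha w.1 (w.2.1.1 : ℕ) (w.2.1.2 : ℕ) w.2.2
    rw [← Finset.sum_coe_sort] at h1
    rw [← h1]
    apply Finset.sum_congr rfl
    intro p _
    rw [Pi.smul_apply, smul_eq_mul, hr p]
    ring)
  intro p hp
  exact hz ⟨p, hp⟩

end Pool.Agent.Helper70.FewP
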